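import Pool.Agent.Helper32_NJ.Stmts

set_option autoImplicit false

namespace Pool.Agent.NJ.H19

theorem drb (hDRA : DRAStmt) (hNRR : NRRStmt) (hCRIT : CRITStmt) : DRBStmt := by
  intro k p₁ p₂ p₃ h
  obtain ⟨sqf, pr1, pr2, pr3, m1, m3, h2, ne, big1, big3, leg⟩ := h
  have hk : k ≠ 0 := sqf.ne_zero
  have q1 : Prime (p₁ : ℤ) := Nat.prime_iff_prime_int.mp pr1
  have q2 : Prime (p₂ : ℤ) := Nat.prime_iff_prime_int.mp pr2
  have q3 : Prime (p₃ : ℤ) := Nat.prime_iff_prime_int.mp pr3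
  have hp1 : (p₁ : ℤ) ≠ 0 := q1.ne_zero
  have hp2 : (p₂ : ℤ) ≠ 0 := q2.ne_zero
  have hp3 : (p₃ : ℤ) ≠ 0 := q3.ne_zero
  have m1z : (p₁ : ℤ) % 8 = 5 := by omega
  have m3z : (p₃ : ℤ) % 8 = 5 := by omega
  -- p₂ is odd
  have odd2 : (p₂ : ℤ) % 2 = 1 := by
    rcases h2 with h2 | h2
    · rw [h2, show (8 * k * (p₃ : ℤ) - p₁) = 2 * (4 * k * p₃) - p₁ by ring]; omega
    · rw [h2, show ((p₁ : ℤ) - 8 * k * p₃) = p₁ - 2 * (4 * k * p₃) by ring]; omega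
  -- divisibility among primes
  have dvd_prime : ∀ a b : ℕ, a.Prime → b.Prime → (a : ℤ) ∣ (b : ℤ) → a = b := by
    intro a b ha hb hab
    exact (Nat.prime_dvd_prime_iff_eq ha hb).mp (by exact_mod_cast hab)
  have n12' : ¬ (p₁ : ℤ) ∣ 2 := by
    intro hd
    have := dvd_prime p₁ 2 pr1 Nat.prime_two (by exact_mod_cast hd)
    omega
  have n22 : ¬ (p₂ : ℤ) ∣ 2 := by
    intro hd
    have := dvd_prime p₂ 2 pr2 Nat.prime_two (by exact_mod_cast hd)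
    omega
  have n13 : ¬ (p₁ : ℤ) ∣ (p₃ : ℤ) := fun hd => ne (dvd_prime _ _ pr1 pr3 hd)
  have n1k : ¬ (p₁ : ℤ) ∣ k := by
    intro hd
    have h1 : p₁ ∣ k.natAbs := Int.natCast_dvd.mp hd
    have h2 : 0 < k.natAbs := Int.natAbs_pos.mpr hk
    have := Nat.le_of_dvd h2 h1
    omega
  have e23 : (2 * (p₁ : ℤ) * p₃ - 16 * k * (p₃ : ℤ) ^ 2) = 2 * p₃ * p₂ ∨
      (2 * (p₁ : ℤ) * p₃ - 16 * k * (p₃ : ℤ) ^ 2) = -(2 * p₃ * p₂) := by
    rcases h2 with h2 | h2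
    · right; rw [h2]; ring
    · left; rw [h2]; ring
  have n12 : p₁ ≠ p₂ := by
    intro heq
    have h8 : (8 * k * (p₃ : ℤ)) = 2 * p₁ ∨ (8 * k * (p₃ : ℤ)) = 0 := by
      rcases h2 with h2 | h2
      · left; rw [heq] at *; linarith
      · right; rw [heq] at *; linarith
    rcases h8 with h8 | h8
    · have h4 : (p₁ : ℤ) = 4 * (k * p₃) := by linarith
      omega
    · rcases mul_eq_zero.mp h8 with h9 | h9
      · apply hk; omega
      · exact hp3 h9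
  have n23 : p₂ ≠ p₃ := by
    intro heq
    have hd : (p₃ : ℤ) ∣ (p₁ : ℤ) := by
      rcases h2 with h2 | h2
      · have : (p₁ : ℤ) = p₃ * (8 * k - 1) := by rw [heq] at h2; linarith
        exact ⟨_, this⟩
      · have : (p₁ : ℤ) = p₃ * (8 * k + 1) := by rw [heq] at h2; linarith
        exact ⟨_, this⟩
    exact ne (dvd_prime _ _ pr3 pr1 hd).symm
  have n2_3 : ¬ (p₂ : ℤ) ∣ (p₃ : ℤ) := fun hd => n23 (dvd_prime _ _ pr2 pr3 hd)
  have n2_1 : ¬ (p₂ : ℤ) ∣ (p₁ : ℤ) := fun hd => n12 (dvd_prime _ _ pr2 pr1 hd).symm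
  have he2 : (2 * (p₁ : ℤ) * p₃) ≠ 0 := mul_ne_zero (mul_ne_zero two_ne_zero hp1) hp3
  have he3 : (16 * k * (p₃ : ℤ) ^ 2) ≠ 0 :=
    mul_ne_zero (mul_ne_zero (by norm_num) hk) (pow_ne_zero _ hp3)
  have h2p : (2 * (p₃ : ℤ) * p₂) ≠ 0 := mul_ne_zero (mul_ne_zero two_ne_zero hp3) hp2
  have hne : (2 * (p₁ : ℤ) * p₃) ≠ 16 * k * (p₃ : ℤ) ^ 2 := by
    intro h0
    rcases e23 with e | e
    · rw [h0, sub_self] at e; exact h2p e.symm
    · rw [h0, sub_self] at e; exact h2p (by linarith)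
  have key := hCRIT (2 * (p₁ : ℤ) * p₃) (16 * k * (p₃ : ℤ) ^ 2) he2 he3 hne ?_ ?_
  · have : Triv (((2 * (p₁ : ℤ) * p₃ : ℤ)) : ℚ) (((16 * k * (p₃ : ℤ) ^ 2 : ℤ)) : ℚ) := key
    push_cast at this
    exact this
  · left
    constructor
    · have h1 : (2 * (p₁ : ℤ) * p₃) = 2 * (p₁ * p₃) := by ring
      have h3 : ((p₁ : ℤ) * p₃) % 2 = 1 := by
        rw [Int.mul_emod]
        have a1 : (p₁ : ℤ) % 2 = 1 := by omega
        have a3 : (p₃ : ℤ) % 2 = 1 := by omega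
        rw [a1, a3]; norm_num
      rw [h1]; omega
    · exact ⟨4 * k * (p₃ : ℤ) ^ 2, by ring⟩
  · apply hNRR (2 * (p₁ : ℤ) * p₃) (16 * k * (p₃ : ℤ) ^ 2) p₁ p₂ pr1 pr2 n12 he3 hne
    · exact ⟨2 * p₃, by ring⟩
    · rintro ⟨c, hc⟩
      have h1 : (2 * (p₃ : ℤ)) = p₁ * c := by
        have : (p₁ : ℤ) * (2 * p₃) = p₁ * (p₁ * c) := by rw [← sub_eq_zero] at hc ⊢; linarith
        exact mul_left_cancel₀ hp1 this
      have : (p₁ : ℤ) ∣ 2 * p₃ := ⟨c, h1⟩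
      rcases q1.dvd_or_dvd this with h | h
      · exact n12' h
      · exact n13 h
    · intro hd
      rcases q1.dvd_or_dvd hd with h | h
      · rcases q1.dvd_or_dvd h with h | h
        · have : (p₁ : ℤ) ∣ 2 ^ 4 := by norm_num; exact h
          exact n12' (q1.dvd_of_dvd_pow this)
        · exact n1k h
      · exact n13 (q1.dvd_of_dvd_pow h)
    · rcases e23 with e | e
      · rw [e]; exact ⟨2 * p₃, by ring⟩
      · rw [e]; exact ⟨-(2 * p₃), by ring⟩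
    · intro hd
      have hd' : (p₂ : ℤ) ^ 2 ∣ 2 * p₃ * p₂ := by
        rcases e23 with e | e
        · rwa [e] at hd
        · rw [e] at hd; exact (dvd_neg.mp hd)
      obtain ⟨c, hc⟩ := hd'
      have h1 : (2 * (p₃ : ℤ)) = p₂ * c := by
        have : (2 * (p₃ : ℤ)) * p₂ = (p₂ * c) * p₂ := by rw [hc]; ring
        exact mul_right_cancel₀ hp2 this
      have : (p₂ : ℤ) ∣ 2 * p₃ := ⟨c, h1⟩
      rcases q2.dvd_or_dvd this with h | h
      · exact n22 h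
      · exact n2_3 h
    · intro hd
      rcases q2.dvd_or_dvd hd with h | h
      · rcases q2.dvd_or_dvd h with h | h
        · exact n22 h
        · exact n2_1 h
      · exact n2_3 h
    · exact hDRA k p₁ p₂ p₃ ⟨sqf, pr1, pr2, pr3, m1, m3, h2, ne, big1, big3, leg⟩

end Pool.Agent.NJ.H19
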